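import Pool.Agent.Zk54.MQ.DefE

/-!
# Changing the coordinates of `m(U^Ω)` along the orbits of a Sylow subgroup (automorphisms of order prime to `p`)
-/

set_option autoImplicit false
set_option linter.all false

open scoped Classical

namespace Pool.Agent.Zk20.MQ

open Pool.Agent.Zk54.MQ

theorem recoordN {p : ℕ} [hp : Fact p.Prime] {G U Ω : Type} [Group G] [Finite G] [Group U] [Finite U]
    [Fintype Ω] [MulAction G Ω] {m : (Ω → U) →* G} {α : G → Ω → MulAut U}
    (h : WE m α) (hα : ∀ g ω, ∃ N : ℕ, ¬ p ∣ N ∧ (α g ω) ^ N = 1) (P : Sylow p G) :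
    ∃ (m₁ : (Ω → U) →* G) (α₁ : G → Ω → MulAut U), WE m₁ α₁ ∧ m₁.range = m.range ∧
      (∀ x ∈ P, ∀ ω, α₁ x ω = 1) ∧
      ∀ n : G, (∀ x ∈ P, n * x * n⁻¹ ∈ P) → ∀ x ∈ P, ∀ ω, α₁ n (x • ω) = α₁ n ω := by
  suffices hs : ∃ (m₁ : (Ω → U) →* G) (α₁ : G → Ω → MulAut U), WE m₁ α₁ ∧ m₁.range = m.range ∧
      (∀ x ∈ P, ∀ ω, α₁ x ω = 1) by
    obtain ⟨m₁, α₁, h1, h2, h3⟩ := hs
    refine ⟨m₁, α₁, h1, h2, h3, fun n hn x hx ω => ?_⟩
    have e1 : α₁ (n * x) ω = α₁ n (x • ω) := by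
      rw [h1.mul, h3 x hx, mul_one]
    have e2 : α₁ (n * x) ω = α₁ n ω := by
      have e3 : n * x = (n * x * n⁻¹) * n := by group
      rw [e3, h1.mul, h3 _ (hn x hx), one_mul]
    rw [← e1, e2]
  have h1ω : ∀ ω, α 1 ω = 1 := by
    intro ω
    have e := h.mul 1 1 ω
    rw [one_mul, one_smul] at e
    exact (mul_eq_left.1 e.symm)
  -- the stabilizers act trivially
  have hst : ∀ y ∈ P, ∀ ω : Ω, y • ω = ω → α y ω = 1 := by
    intro y hy ω hyω
    have hpow : ∀ n : ℕ, y ^ n • ω = ω ∧ α (y ^ n) ω = α y ω ^ n := by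
      intro n
      induction n with
      | zero => exact ⟨by rw [pow_zero, one_smul], by rw [pow_zero, pow_zero, h1ω]⟩
      | succ n ih =>
        refine ⟨by rw [pow_succ', mul_smul, ih.1, hyω], ?_⟩
        rw [pow_succ', h.mul, ih.1, ih.2, pow_succ']
    obtain ⟨k, hk⟩ := P.isPGroup' ⟨y, hy⟩
    have hk' : y ^ p ^ k = 1 := congrArg Subtype.val hk
    have e1 : α y ω ^ p ^ k = 1 := by
      rw [← (hpow _).2, hk', h1ω]
    obtain ⟨N, hN, e2⟩ := hα y ω
    have hc : Nat.Coprime (p ^ k) N := by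
      apply Nat.Coprime.pow_left
      exact (Nat.Prime.coprime_iff_not_dvd hp.out).2 hN
    have e3 : α y ω ^ Nat.gcd (p ^ k) N = 1 := pow_gcd_eq_one.2 ⟨e1, e2⟩
    rwa [hc, pow_one] at e3
  -- representatives
  let r : Ω → Ω := fun ω => Quotient.out (Quotient.mk (MulAction.orbitRel P Ω) ω)
  have hr : ∀ ω, ∃ x : G, x ∈ P ∧ x • r ω = ω := by
    intro ω
    have h2 : (MulAction.orbitRel P Ω) ω (r ω) := by
      have h3 : (MulAction.orbitRel P Ω) (r ω) ω := Quotient.exact (Quotient.out_eq _)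
      exact (MulAction.orbitRel P Ω).symm h3
    obtain ⟨⟨x, hx⟩, hxr⟩ := h2
    exact ⟨x, hx, hxr⟩
  have hrx : ∀ x ∈ P, ∀ ω, r (x • ω) = r ω := by
    intro x hx ω
    change Quotient.out _ = Quotient.out _
    congr 1
    apply Quotient.sound
    exact ⟨⟨x, hx⟩, rfl⟩
  choose X hXP hXr using hr
  let κ : Ω → MulAut U := fun ω => α (X ω) (r ω)
  let m₁ : (Ω → U) →* G :=
    { toFun := fun u => m fun ω => κ ω (u ω)
      map_one' := by
        rw [← map_one m]
        congr 1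
        funext ω
        exact map_one _
      map_mul' := fun u v => by
        rw [← map_mul m]
        congr 1
        funext ω
        exact map_mul _ _ _ }
  let α₁ : G → Ω → MulAut U := fun g ω => (κ (g • ω))⁻¹ * α g ω * κ ω
  have hm₁ : ∀ u, m₁ u = m fun ω => κ ω (u ω) := fun u => rfl
  have hcen : ∀ (β : MulAut U) (z : U), β z ∈ Subgroup.center U ↔ z ∈ Subgroup.center U := by
    intro β z
    rw [Subgroup.mem_center_iff, Subgroup.mem_center_iff]
    constructor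
    · intro h3 g
      apply β.injective
      rw [map_mul, map_mul]
      exact h3 _
    · intro h3 g
      have := congrArg β (h3 (β.symm g))
      rw [map_mul, map_mul, MulEquiv.apply_symm_apply] at this
      exact this
  refine ⟨m₁, α₁, ?_, ?_, ?_⟩
  · refine ⟨?_, ?_, ?_, ?_, ?_, ?_, ?_⟩
    · intro g u
      rw [hm₁, hm₁, h.eqv]
      congr 1
      funext ω
      change α g (g⁻¹ • ω) (κ (g⁻¹ • ω) (u (g⁻¹ • ω))) =
        κ ω ((κ (g • g⁻¹ • ω))⁻¹ (α g (g⁻¹ • ω) (κ (g⁻¹ • ω) (u (g⁻¹ • ω)))))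
      rw [smul_inv_smul, MulAut.apply_inv_self]
    · intro g h' ω
      change (κ ((g * h') • ω))⁻¹ * α (g * h') ω * κ ω =
        ((κ (g • h' • ω))⁻¹ * α g (h' • ω) * κ (h' • ω)) * ((κ (h' • ω))⁻¹ * α h' ω * κ ω)
      rw [h.mul, mul_smul]
      group
    · intro u ω
      exact h.triv _ ω
    · intro u ω v
      change (κ (m₁ u • ω))⁻¹ (α (m₁ u) ω (κ ω v)) = _
      have e : m₁ u • ω = ω := h.triv _ ω
      rw [e, hm₁, h.inn, map_mul, map_mul, map_inv, MulAut.inv_apply_self, MulAut.inv_apply_self]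
    · intro u hu ω
      exact (hcen (κ ω) (u ω)).1 (h.ker _ hu ω)
    · intro u hu
      exact h.cen _ fun ω => (hcen (κ ω) (u ω)).2 (hu ω)
    · intro g ω z hz
      change (κ (g • ω))⁻¹ (α g ω (κ ω z)) = z
      have e1 : κ ω z = z := h.fixc _ _ z hz
      have e2 : κ (g • ω) z = z := h.fixc _ _ z hz
      rw [e1, h.fixc g ω z hz]
      conv_lhs => rw [← e2]
      exact MulAut.inv_apply_self _ _ _
  · ext g
    constructor
    · rintro ⟨u, rfl⟩
      exact ⟨_, rfl⟩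
    · rintro ⟨u, rfl⟩
      refine ⟨fun ω => (κ ω)⁻¹ (u ω), ?_⟩
      rw [hm₁]
      congr 1
      funext ω
      exact MulAut.apply_inv_self _ _ _
  · intro x hx ω
    change (α (X (x • ω)) (r (x • ω)))⁻¹ * α x ω * α (X ω) (r ω) = 1
    have e0 := hrx x hx ω
    have e1 : X (x • ω) • r ω = x • ω := by
      have := hXr (x • ω)
      rwa [e0] at this
    have e2 : α x ω * α (X ω) (r ω) = α (x * X ω) (r ω) := by
      rw [h.mul, hXr]
    rw [e0, mul_assoc, e2]
    set y := (X (x • ω))⁻¹ * (x * X ω) with hy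
    have hyP : y ∈ P := mul_mem (inv_mem (hXP _)) (mul_mem hx (hXP _))
    have hyr : y • r ω = r ω := by
      rw [hy, mul_smul, mul_smul, hXr ω, inv_smul_eq_iff, e1]
    have e3 : x * X ω = X (x • ω) * y := by rw [hy, mul_inv_cancel_left]
    rw [e3, h.mul, hyr, hst y hyP _ hyr, mul_one, inv_mul_cancel]

end Pool.Agent.Zk20.MQ
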