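import Pool.Agent.Zk54.MQ.DefE

/-!
# Changing the coordinates of `m(U^Ω)` along the orbits of a Sylow subgroup
-/

set_option autoImplicit false
set_option linter.all false

open scoped Classical

namespace Pool.Agent.Zk20.MQ

open Pool.Agent.Zk54.MQ

section
variable {U : Type} [Group U] (a : MulAut U)

/-- `β` is `a ^ i` up to an inner automorphism -/
def QA (β : MulAut U) : Prop := ∃ (i : ℕ) (u : U), ∀ v, β v = u * (a ^ i) v * u⁻¹

variable {a}

theorem QA.one : QA a 1 := ⟨0, 1, fun v => by simp⟩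

theorem QA.mul {β γ : MulAut U} (hβ : QA a β) (hγ : QA a γ) : QA a (β * γ) := by
  obtain ⟨i, u, hu⟩ := hβ
  obtain ⟨j, w, hw⟩ := hγ
  refine ⟨i + j, u * (a ^ i) w, fun v => ?_⟩
  rw [MulAut.mul_apply, hw, hu, pow_add, MulAut.mul_apply, map_mul, map_mul, map_inv, mul_inv_rev]
  group

theorem QA.pow {β : MulAut U} (hβ : QA a β) (n : ℕ) : QA a (β ^ n) := by
  induction n with
  | zero => exact QA.one
  | succ n ih => rw [pow_succ]; exact ih.mul hβ

theorem QA.inv [Finite U] {β : MulAut U} (hβ : QA a β) : QA a β⁻¹ := by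
  have : Finite (MulAut U) := Finite.of_injective (fun φ : MulAut U => (φ : U → U)) (by
    intro φ ψ h
    exact MulEquiv.ext (congrFun h))
  have h1 : β⁻¹ = β ^ (orderOf β - 1) := by
    rw [inv_eq_iff_mul_eq_one, ← pow_succ', Nat.sub_add_cancel (orderOf_pos β), pow_orderOf_eq_one]
  rw [h1]
  exact hβ.pow _

/-- inner automorphisms have an order dividing `|U|` -/
theorem inner_pow [Finite U] {β : MulAut U} {w : U} (h : ∀ v, β v = w * v * w⁻¹) :
    β ^ Nat.card U = 1 := by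
  have h1 : β = MulAut.conj w := MulEquiv.ext fun v => by rw [h v, MulAut.conj_apply]
  rw [h1, ← map_pow, pow_card_eq_one', map_one]

/-- the `b`-th power is inner -/
theorem QA.pow_inner {b : ℕ} {u₁ : U} (hab : ∀ v, (a ^ b) v = u₁ * v * u₁⁻¹) {β : MulAut U}
    (hβ : QA a β) : ∃ w : U, ∀ v, (β ^ b) v = w * v * w⁻¹ := by
  obtain ⟨i, u, hu⟩ := hβ
  have hb : a ^ b = MulAut.conj u₁ := MulEquiv.ext fun v => by rw [hab v, MulAut.conj_apply]
  have hβ' : β = MulAut.conj u * a ^ i := MulEquiv.ext fun v => by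
    rw [hu v, MulAut.mul_apply, MulAut.conj_apply]
  have key : ∀ n : ℕ, ∃ w : U, β ^ n = MulAut.conj w * a ^ (i * n) := by
    intro n
    induction n with
    | zero => exact ⟨1, by simp⟩
    | succ n ih =>
      obtain ⟨w, hw⟩ := ih
      refine ⟨w * (a ^ (i * n)) u, ?_⟩
      rw [pow_succ, hw, hβ']
      ext v
      simp only [MulAut.mul_apply, MulAut.conj_apply, map_mul, map_inv, mul_inv_rev]
      rw [Nat.mul_succ, pow_add, MulAut.mul_apply]
  obtain ⟨w, hw⟩ := key b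
  refine ⟨w * u₁ ^ i, fun v => ?_⟩
  rw [hw, mul_comm i b, pow_mul, hb, ← map_pow, ← map_mul, MulAut.conj_apply]

end

theorem recoord {p : ℕ} [hp : Fact p.Prime] {G U Ω : Type} [Group G] [Finite G] [Group U] [Finite U]
    [Fintype Ω] [MulAction G Ω] {m : (Ω → U) →* G} {α : G → Ω → MulAut U}
    (h : WE m α) (hU : ¬ p ∣ Nat.card U) (a : MulAut U) (b : ℕ) (hb : ¬ p ∣ b) (u₁ : U)
    (hab : ∀ v, (a ^ b) v = u₁ * v * u₁⁻¹)
    (hα : ∀ (g : G) (ω : Ω), ∃ (i : ℕ) (u : U), ∀ v, α g ω v = u * (a ^ i) v * u⁻¹)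
    (P : Sylow p G) :
    ∃ (κ : Ω → MulAut U) (m₁ : (Ω → U) →* G) (α₁ : G → Ω → MulAut U),
      (∀ u, m₁ u = m fun ω => κ ω (u ω)) ∧ (∀ g ω, α₁ g ω = (κ (g • ω))⁻¹ * α g ω * κ ω) ∧
      WE m₁ α₁ ∧ m₁.range = m.range ∧
      (∀ (g : G) (ω : Ω), ∃ (i : ℕ) (u : U), ∀ v, α₁ g ω v = u * (a ^ i) v * u⁻¹) ∧
      ∀ x ∈ P, ∀ ω, α₁ x ω = 1 := by
  have h1ω : ∀ ω, α 1 ω = 1 := by
    intro ω
    have e := h.mul 1 1 ω
    rw [one_mul, one_smul] at e
    exact (mul_eq_left.1 e.symm)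
  -- the stabilizers act trivially
  have hst : ∀ y ∈ P, ∀ ω : Ω, y • ω = ω → α y ω = 1 := by
    intro y hy ω hyω
    have hpow : ∀ n : ℕ, y ^ n • ω = ω ∧ α (y ^ n) ω = α y ω ^ n := by
      intro n
      induction n with
      | zero => exact ⟨by rw [pow_zero, one_smul], by rw [pow_zero, pow_zero, h1ω]⟩
      | succ n ih =>
        refine ⟨by rw [pow_succ', mul_smul, ih.1, hyω], ?_⟩
        rw [pow_succ', h.mul, ih.1, ih.2, pow_succ']
    obtain ⟨k, hk⟩ := P.isPGroup' ⟨y, hy⟩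
    have hk' : y ^ p ^ k = 1 := congrArg Subtype.val hk
    have e1 : α y ω ^ p ^ k = 1 := by
      rw [← (hpow _).2, hk', h1ω]
    obtain ⟨w, hw⟩ := QA.pow_inner hab (hα y ω)
    have e2 : α y ω ^ (b * Nat.card U) = 1 := by
      rw [pow_mul]
      exact inner_pow hw
    have hc : Nat.Coprime (p ^ k) (b * Nat.card U) := by
      apply Nat.Coprime.pow_left
      rw [Nat.Prime.coprime_iff_not_dvd hp.out, Nat.Prime.dvd_mul hp.out]
      tauto
    have e3 : α y ω ^ Nat.gcd (p ^ k) (b * Nat.card U) = 1 := pow_gcd_eq_one.2 ⟨e1, e2⟩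
    rwa [hc, pow_one] at e3
  -- representatives
  let r : Ω → Ω := fun ω => Quotient.out (Quotient.mk (MulAction.orbitRel P Ω) ω)
  have hr : ∀ ω, ∃ x : G, x ∈ P ∧ x • r ω = ω := by
    intro ω
    have h2 : (MulAction.orbitRel P Ω) ω (r ω) := by
      have h3 : (MulAction.orbitRel P Ω) (r ω) ω := Quotient.exact (Quotient.out_eq _)
      exact (MulAction.orbitRel P Ω).symm h3
    obtain ⟨⟨x, hx⟩, hxr⟩ := h2
    exact ⟨x, hx, hxr⟩
  have hrx : ∀ x ∈ P, ∀ ω, r (x • ω) = r ω := by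
    intro x hx ω
    change Quotient.out _ = Quotient.out _
    congr 1
    apply Quotient.sound
    exact ⟨⟨x, hx⟩, rfl⟩
  choose X hXP hXr using hr
  let κ : Ω → MulAut U := fun ω => α (X ω) (r ω)
  let m₁ : (Ω → U) →* G :=
    { toFun := fun u => m fun ω => κ ω (u ω)
      map_one' := by
        rw [← map_one m]
        congr 1
        funext ω
        exact map_one _
      map_mul' := fun u v => by
        rw [← map_mul m]
        congr 1
        funext ω
        exact map_mul _ _ _ }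
  let α₁ : G → Ω → MulAut U := fun g ω => (κ (g • ω))⁻¹ * α g ω * κ ω
  have hm₁ : ∀ u, m₁ u = m fun ω => κ ω (u ω) := fun u => rfl
  have hcen : ∀ (β : MulAut U) (z : U), β z ∈ Subgroup.center U ↔ z ∈ Subgroup.center U := by
    intro β z
    rw [Subgroup.mem_center_iff, Subgroup.mem_center_iff]
    constructor
    · intro h3 g
      apply β.injective
      rw [map_mul, map_mul]
      exact h3 _
    · intro h3 g
      have := congrArg β (h3 (β.symm g))
      rw [map_mul, map_mul, MulEquiv.apply_symm_apply] at this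
      exact this
  refine ⟨κ, m₁, α₁, hm₁, fun g ω => rfl, ?_, ?_, ?_, ?_⟩
  · refine ⟨?_, ?_, ?_, ?_, ?_, ?_, ?_⟩
    · intro g u
      rw [hm₁, hm₁, h.eqv]
      congr 1
      funext ω
      change α g (g⁻¹ • ω) (κ (g⁻¹ • ω) (u (g⁻¹ • ω))) =
        κ ω ((κ (g • g⁻¹ • ω))⁻¹ (α g (g⁻¹ • ω) (κ (g⁻¹ • ω) (u (g⁻¹ • ω)))))
      rw [smul_inv_smul, MulAut.apply_inv_self]
    · intro g h' ω
      change (κ ((g * h') • ω))⁻¹ * α (g * h') ω * κ ω =
        ((κ (g • h' • ω))⁻¹ * α g (h' • ω) * κ (h' • ω)) * ((κ (h' • ω))⁻¹ * α h' ω * κ ω)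
      rw [h.mul, mul_smul]
      group
    · intro u ω
      exact h.triv _ ω
    · intro u ω v
      change (κ (m₁ u • ω))⁻¹ (α (m₁ u) ω (κ ω v)) = _
      have e : m₁ u • ω = ω := h.triv _ ω
      rw [e, hm₁, h.inn, map_mul, map_mul, map_inv, MulAut.inv_apply_self, MulAut.inv_apply_self]
    · intro u hu ω
      exact (hcen (κ ω) (u ω)).1 (h.ker _ hu ω)
    · intro u hu
      exact h.cen _ fun ω => (hcen (κ ω) (u ω)).2 (hu ω)
    · intro g ω z hz
      change (κ (g • ω))⁻¹ (α g ω (κ ω z)) = z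
      have e1 : κ ω z = z := h.fixc _ _ z hz
      have e2 : κ (g • ω) z = z := h.fixc _ _ z hz
      rw [e1, h.fixc g ω z hz]
      conv_lhs => rw [← e2]
      exact MulAut.inv_apply_self _ _ _
  · ext g
    constructor
    · rintro ⟨u, rfl⟩
      exact ⟨_, rfl⟩
    · rintro ⟨u, rfl⟩
      refine ⟨fun ω => (κ ω)⁻¹ (u ω), ?_⟩
      rw [hm₁]
      congr 1
      funext ω
      exact MulAut.apply_inv_self _ _ _
  · intro g ω
    exact ((QA.inv (hα _ _)).mul (hα g ω)).mul (hα _ _)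
  · intro x hx ω
    change (α (X (x • ω)) (r (x • ω)))⁻¹ * α x ω * α (X ω) (r ω) = 1
    have e0 := hrx x hx ω
    have e1 : X (x • ω) • r ω = x • ω := by
      have := hXr (x • ω)
      rwa [e0] at this
    have e2 : α x ω * α (X ω) (r ω) = α (x * X ω) (r ω) := by
      rw [h.mul, hXr]
    rw [e0, mul_assoc, e2]
    set y := (X (x • ω))⁻¹ * (x * X ω) with hy
    have hyP : y ∈ P := mul_mem (inv_mem (hXP _)) (mul_mem hx (hXP _))
    have hyr : y • r ω = r ω := by
      rw [hy, mul_smul, mul_smul, hXr ω, inv_smul_eq_iff, e1]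
    have e3 : x * X ω = X (x • ω) * y := by rw [hy, mul_inv_cancel_left]
    rw [e3, h.mul, hyr, hst y hyP _ hyr, mul_one, inv_mul_cancel]

end Pool.Agent.Zk20.MQ
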